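import Pool.Agent.H3R2.NoEig

open Pool.Agent.H3R2.TD

namespace Pool.Agent.Results.MP_4efd05_mp.NoFixedTimeBoundState

/-- Q2 (negative answer, dimension `n = 1`): there is a smooth potential `V`, bounded with all
derivatives and localized in space uniformly in time, such that `-∂_x² + V(·,t)` has no bound state
for every fixed `t`, while `i ∂_t ψ = -∂_x² ψ + V ψ` has a localized solution. -/
theorem result : ∃ V : ℝ → ℝ → ℝ, SmoothLocalized V ∧ (∀ t, NoEigenvalue (fun x => V x t)) ∧
    ∃ ψ : ℝ → ℝ → ℂ, IsBoundState V ψ :=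
  Pool.Agent.H3R2.main2

end Pool.Agent.Results.MP_4efd05_mp.NoFixedTimeBoundState
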