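import Pool.Agent.H3R2.Main

open Pool.Agent.H3R2.TD

namespace Pool.Agent.Results.MP_4efd05_mp.PositiveBoundState

/-- Q1: in dimension `n = 1` there is an admissible potential `V ≥ 0` (smooth, bounded with all
derivatives, localized in space uniformly in time, not identically zero) for which
`i ∂_t ψ = -∂_x² ψ + V ψ` has a bound state. -/
theorem result : ∃ V : ℝ → ℝ → ℝ, Admissible V ∧ ∃ ψ : ℝ → ℝ → ℂ, IsBoundState V ψ :=
  Pool.Agent.H3R2.main

end Pool.Agent.Results.MP_4efd05_mp.PositiveBoundState
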